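import Pool.Agent.L5helper73.GS.D
import Pool.Agent.Y776.AxJ.Fun

/-!
# The modular Schanuel conjecture for infinite sequences of points on arbitrary analytic curves

For each `k = 0, 1, 2, …` let `τ_(k1), …, τ_(kp)`, `p = p_k`, be nonconstant analytic functions on a connected open set
`U_k` with values in the upper half-plane, such that `j(τ_(ki))` and `j(τ_(kl))` are algebraically independent over `ℂ` for
`i ≠ l` (there is no condition on functions with different `k`, which may be the same functions). The modular Schanuel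
conjecture says that for non-special points `τ_1, …, τ_n` in different orbits at least `n` of the numbers `τ_i`, `j(τ_i)` are
algebraically independent, and with derivatives at least `3 n` of the `4 n` numbers `τ_i, j(τ_i), j'(τ_i), j''(τ_i)`.

We choose one after the other numbers `x_0, x_1, x_2, …`: at the step `k` a number field `F_k` of degree at most `m_k`, a large
number `T_k` (above a threshold, `T_0 ≤ T_1 ≤ …`) and a disc of radius `T_k ^ (-δ_k)` around a point of a compact set
`L_k ⊂ U_k` are given, and `x_k` may be any element of `F_k` in this disc of height at most `T_k`, **with at most `C_k`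
exceptions**, which depend on the numbers chosen before; `C_k` does not depend on `F_k` and `T_k`. Then, for all the points
`τ_(ki)(x_k)` of all the curves together, `3 p_k` fixed ones among the `4 p_k` numbers `τ_(ki), j(τ_(ki)), j'(τ_(ki)),
j''(τ_(ki))` at `x_k`, among them at least `p_k` of the `2 p_k` numbers `τ_(ki)`, `j(τ_(ki))`, are algebraically independent in
growing degree and height, relative to the first terms of a given sequence of complex numbers and to all the `4 p_l` numbers
for the smaller `l`. In the starting theorem `SmallDiscs` the number of curves is fixed.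
-/

set_option autoImplicit false

open NumberField
open Pool.Agent

namespace Pool.Agent.Results.MP_47914d_nt.InfiniteSequences

/-- The lattice `ℤ + ℤ τ`. -/
noncomputable def lattice (τ : ℂ) (h : 0 < τ.im) : PeriodPair where
  ω₁ := 1
  ω₂ := τ
  indep := (Y685.LL ⟨τ, h⟩).indep

/-- The modular invariant `j = 1728 g₂³ / (g₂³ - 27 g₃²)` on the upper half-plane. -/
noncomputable def j (τ : ℂ) : ℂ :=
  if h : 0 < τ.im then 1728 * (lattice τ h).g₂ ^ 3 / ((lattice τ h).g₂ ^ 3 - 27 * (lattice τ h).g₃ ^ 2) else 0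

/-- The names of the functions `τ_i`, `j(τ_i)`, `j'(τ_i)`, `j''(τ_i)`. -/
inductive Name (p : ℕ) : Type
  | tau : Fin p → Name p
  | j : Fin p → Name p
  | dj : Fin p → Name p
  | ddj : Fin p → Name p

/-- The names of the functions `τ_i` and `j(τ_i)`. -/
def Basic {p : ℕ} (a : Name p) : Prop := ∃ i, a = Name.tau i ∨ a = Name.j i

/-- The values `τ_i(z)`, `j(τ_i(z))`, `j'(τ_i(z))`, `j''(τ_i(z))` (complex derivatives of `j`). -/
noncomputable def value {p : ℕ} (τ : Fin p → ℂ → ℂ) (z : ℂ) : Name p → ℂ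
  | Name.tau i => τ i z
  | Name.j i => j (τ i z)
  | Name.dj i => deriv j (τ i z)
  | Name.ddj i => deriv (deriv j) (τ i z)

/-- An analytic curve in `ℍ^p`, on no proper subvariety given by a relation between two of the `j(τ_i)` (with
constant coefficients), and with nonconstant coordinates. -/
structure Curve (U : Set ℂ) {p : ℕ} (τ : Fin p → ℂ → ℂ) : Prop where
  pos : 0 < p
  isOpen : IsOpen U
  isPreconnected : IsPreconnected U
  nonempty : U.Nonempty
  analytic : ∀ i, AnalyticOnNhd ℂ (τ i) U
  im_pos : ∀ i, ∀ z ∈ U, 0 < (τ i z).im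
  nonconstant : ∀ i c, ∃ z ∈ U, τ i z ≠ c
  /-- two of the functions `j(τ_i)` are algebraically independent over `ℂ` -/
  independent : ∀ i k, i ≠ k → ∀ P : MvPolynomial (Fin 2) ℂ, P ≠ 0 →
    ∃ z ∈ U, MvPolynomial.eval ![j (τ i z), j (τ k z)] P ≠ 0

/-- The element `x` of `F` is a quotient of integers all of whose conjugates have absolute value at most `T`. -/
def HeightLe (F : Type) [Field F] [NumberField F] (T : ℝ) (x : F) : Prop :=
  ∃ a b : 𝓞 F, b ≠ 0 ∧ (∀ φ : F →+* ℂ, ‖φ a‖ ≤ T ∧ ‖φ b‖ ≤ T) ∧ x = a / b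

/-- The indices of the numbers: natural numbers (for the constants), and pairs of a natural number `k` and the name of one
of the `4 p_k` functions of the `k`-th curve. -/
abbrev Ind (p : ℕ → ℕ) : Type := ℕ ⊕ Σ k : ℕ, Name (p k)

/-- The numbers: the constants `c_0, c_1, …` and the values of the functions of the `k`-th curve at `z_k`. -/
noncomputable def numbers {p : ℕ → ℕ} (τ : ∀ k, Fin (p k) → ℂ → ℂ) (c z : ℕ → ℂ) : Ind p → ℂ :=
  Sum.elim c fun q => value (τ q.1) (z q.1) q.2

/-- Independence from level `k` on of the functions selected by `e`: every polynomial `P` in the numbers, with integral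
coefficients of absolute value at most `H` and of degree at most `D` in each of the (arbitrarily many) variables, in which
only the constants `c_i`, `i < D`, and, for the curves from the `k`-th one on, only the selected functions occur, and
which vanishes at the numbers, still vanishes if the values for the curves from the `k`-th one on are replaced by
arbitrary complex numbers. -/
def Independent {p : ℕ → ℕ} (e : ∀ k, Fin (3 * p k) → Name (p k)) (τ : ∀ k, Fin (p k) → ℂ → ℂ) (c z : ℕ → ℂ) (k D : ℕ)
    (H : ℝ) : Prop :=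
  ∀ P : MvPolynomial (Ind p) ℤ, (∀ v, P.degreeOf v ≤ D) → (∀ s, |((P.coeff s : ℤ) : ℝ)| ≤ H) →
    (∀ i, Sum.inl i ∈ P.vars → i < D) → (∀ q : Σ k, Name (p k), Sum.inr q ∈ P.vars → k ≤ q.1 → ∃ i, q.2 = e q.1 i) →
    MvPolynomial.aeval (numbers τ c z) P = 0 →
    ∀ y : Ind p → ℂ, (∀ i, y (Sum.inl i) = c i) → (∀ q, q.1 < k → y (Sum.inr q) = numbers τ c z (Sum.inr q)) →
      MvPolynomial.aeval y P = 0

theorem j_eq {τ : ℂ} (h : 0 < τ.im) : j τ = Y776.jf τ := by
  have h1 : Y685.LC τ = lattice τ h := by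
    rw [Y685.LC, UpperHalfPlane.ofComplex_apply_of_im_pos h]
    rfl
  rw [j, dif_pos h, Y776.jf, h1]

theorem j_ev {τ : ℂ} (h : 0 < τ.im) : j =ᶠ[nhds τ] Y776.jf := by
  filter_upwards [Y776.AxJ.isOpen_H.mem_nhds h] with σ hσ
  exact j_eq hσ

theorem dj_eq {τ : ℂ} (h : 0 < τ.im) : deriv j τ = deriv Y776.jf τ := (j_ev h).deriv_eq

theorem dj_ev {τ : ℂ} (h : 0 < τ.im) : deriv j =ᶠ[nhds τ] deriv Y776.jf := by
  filter_upwards [Y776.AxJ.isOpen_H.mem_nhds h] with σ hσ
  exact dj_eq hσ

theorem ddj_eq {τ : ℂ} (h : 0 < τ.im) : deriv (deriv j) τ = deriv (deriv Y776.jf) τ := (dj_ev h).deriv_eq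

theorem fmj {U : Set ℂ} {p : ℕ} {τ : Fin p → ℂ → ℂ} (h : Curve U τ) :
    Y776.AxJ.Fmj U τ (fun k : Fin 0 => k.elim0) where
  op := h.isOpen
  conn := h.isPreconnected
  ne := h.nonempty
  ta := h.analytic
  im := h.im_pos
  nc := h.nonconstant
  ji := by
    intro i k hik P hP
    by_contra hne
    obtain ⟨z, hz, hz0⟩ := h.independent i k hik P hne
    apply hz0
    rw [← hP z hz]
    congr 2
    funext m
    fin_cases m
    · exact j_eq (h.im_pos i z hz)
    · exact j_eq (h.im_pos k z hz)
  wa := fun k => k.elim0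
  wi := fun _ _ _ => Subsingleton.elim _ _

/-- the name of a function -/
def nm {p : ℕ} : Y776.AxJ.Nj p 0 → Name p := fun o => match o with
  | Sum.inl (i, 0) => Name.tau i
  | Sum.inl (i, 1) => Name.j i
  | Sum.inl (i, 2) => Name.dj i
  | Sum.inl (i, 3) => Name.ddj i
  | Sum.inr (Sum.inl k) => k.elim0
  | Sum.inr (Sum.inr k) => k.elim0

/-- the function with a given name -/
def mn {p : ℕ} : Name p → Y776.AxJ.Nj p 0 := fun o => match o with
  | Name.tau i => Sum.inl (i, 0)
  | Name.j i => Sum.inl (i, 1)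
  | Name.dj i => Sum.inl (i, 2)
  | Name.ddj i => Sum.inl (i, 3)

theorem nm_mn {p : ℕ} (a : Name p) : nm (mn a) = a := by
  cases a <;> rfl

theorem mn_nm {p : ℕ} : Function.LeftInverse (mn (p := p)) nm := by
  rintro (⟨i, m⟩ | k | k)
  · fin_cases m <;> rfl
  · exact k.elim0
  · exact k.elim0

theorem nm_inj {p : ℕ} : Function.Injective (nm (p := p)) := mn_nm.injective

noncomputable instance fintypeName (p : ℕ) : Fintype (Name p) :=
  Fintype.ofInjective (mn (p := p)) (Function.LeftInverse.injective (g := nm) nm_mn)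

theorem value_eq {U : Set ℂ} {p : ℕ} {τ : Fin p → ℂ → ℂ} (h : Curve U τ) {z : ℂ}
    (hz : z ∈ U) (o : Y776.AxJ.Nj p 0) :
    value τ z (nm o) = Y776.AxJ.yj τ (fun k : Fin 0 => k.elim0) o z := by
  rcases o with ⟨i, m⟩ | k | k
  · fin_cases m
    · rfl
    · exact j_eq (h.im_pos i z hz)
    · exact dj_eq (h.im_pos i z hz)
    · exact ddj_eq (h.im_pos i z hz)
  · exact k.elim0
  · exact k.elim0

/-- among `3 p` of the names at least `p` are basic -/
theorem exists_basic {p : ℕ} (e : Fin (3 * p) → Name p) (he : Function.Injective e) :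
    ∃ f : Fin p → Fin (3 * p), Function.Injective f ∧ ∀ i, Basic (e (f i)) := by
  classical
  let g : {k : Fin (3 * p) // ¬ Basic (e k)} → Fin p ⊕ Fin p := fun k =>
    match e k.1 with
    | Name.tau i => Sum.inl i
    | Name.j i => Sum.inl i
    | Name.dj i => Sum.inl i
    | Name.ddj i => Sum.inr i
  have hg : Function.Injective g := by
    rintro ⟨k, hk⟩ ⟨l, hl⟩ hkl
    apply Subtype.ext
    apply he
    simp only [g] at hkl
    rcases hek : e k with i | i | i | i
    · exact absurd ⟨i, Or.inl hek⟩ hk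
    · exact absurd ⟨i, Or.inr hek⟩ hk
    · rcases hel : e l with i' | i' | i' | i'
      · exact absurd ⟨i', Or.inl hel⟩ hl
      · exact absurd ⟨i', Or.inr hel⟩ hl
      · rw [hek, hel] at hkl
        rw [Sum.inl.inj hkl]
      · rw [hek, hel] at hkl
        exact absurd hkl (by simp)
    · rcases hel : e l with i' | i' | i' | i'
      · exact absurd ⟨i', Or.inl hel⟩ hl
      · exact absurd ⟨i', Or.inr hel⟩ hl
      · rw [hek, hel] at hkl
        exact absurd hkl (by simp)
      · rw [hek, hel] at hkl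
        rw [Sum.inr.inj hkl]
  have h1 := Fintype.card_le_of_injective g hg
  have h2 := Fintype.card_subtype_compl (fun k : Fin (3 * p) => Basic (e k))
  have h4 : Fintype.card {k : Fin (3 * p) // Basic (e k)} ≤ Fintype.card (Fin (3 * p)) :=
    Fintype.card_subtype_le _
  rw [Fintype.card_sum, Fintype.card_fin] at h1
  rw [Fintype.card_fin] at h2 h4
  have h3 : p ≤ Fintype.card {k : Fin (3 * p) // Basic (e k)} := by omega
  have h5 : Fintype.card (Fin p) ≤ Fintype.card {k : Fin (3 * p) // Basic (e k)} := by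
    rwa [Fintype.card_fin]
  obtain ⟨f⟩ := Function.Embedding.nonempty_of_card_le h5
  exact ⟨fun i => (f i).1, fun a b hab => f.injective (Subtype.ext hab), fun i => (f i).2⟩

open Pool.Agent.L5helper73.GS

/-- For every sequence of curves one can choose, for each `k`, `3 p_k` different functions `e_k` among the `4 p_k` functions
of the `k`-th curve, at least `p_k` of them among the functions `τ_i`, `j(τ_i)`, with the following property. Let
`L_k ⊂ U_k` be compact, let `ψ` be an increasing function, `m_k` any numbers and `δ_k > 0`. There are numbers `C_k` and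
thresholds `θ_k` such that for all number fields `F_k ⊂ ℂ` of degree at most `m_k`, all `T_0 ≤ T_1 ≤ …`, `T_k ≥ θ_k`, all
points `t_k` of `L_k` and all complex numbers `c_0, c_1, …` there are sets `E_k(x)` of at most `C_k` elements of `F_k`, where
`E_k(x)` only depends on `x_0, …, x_(k-1)`, such that for all sequences of elements `x_l` of `F_l` and all `k` with
`|x_l - t_l| ≤ T_l ^ (-δ_l)`, height of `x_l` at most `T_l` and `x_l ∉ E_l(x)` for all `l ≥ k`: the values of the selected
functions of the curves with `l ≥ k` at `x_l` are independent in degree `≤ ψ(k)` and height `≤ T_k ^ ψ(k)` relative to the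
constants and all the values for `l < k`. -/
theorem result (p : ℕ → ℕ) (U : ℕ → Set ℂ) (τ : ∀ k, Fin (p k) → ℂ → ℂ) (hU : ∀ k, Curve (U k) (τ k)) :
    ∃ e : ∀ k, Fin (3 * p k) → Name (p k), (∀ k, Function.Injective (e k)) ∧
      (∀ k, ∃ f : Fin (p k) → Fin (3 * p k), Function.Injective f ∧ ∀ i, Basic (e k (f i))) ∧
      ∀ L : ℕ → Set ℂ, (∀ k, IsCompact (L k)) → (∀ k, L k ⊆ U k) → ∀ ψ : ℕ → ℕ, Monotone ψ → ∀ (m : ℕ → ℕ) (δ : ℕ → ℝ),
        (∀ k, 0 < δ k) →
        ∃ (C : ℕ → ℕ) (θ : ℕ → ℝ), ∀ (F : ℕ → Type) [∀ k, Field (F k)] [∀ k, NumberField (F k)],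
          (∀ k, Module.finrank ℚ (F k) ≤ m k) → ∀ (ι : ∀ k, F k →+* ℂ) (T : ℕ → ℝ) (t c : ℕ → ℂ), Monotone T →
          (∀ k, θ k ≤ T k ∧ t k ∈ L k) →
          ∃ E : ∀ k, (∀ i, F i) → Finset (F k), (∀ k x, (E k x).card ≤ C k) ∧
            (∀ k (x x' : ∀ i, F i), (∀ i < k, x i = x' i) → E k x = E k x') ∧
            ∀ (x : ∀ i, F i) (k : ℕ), (∀ l, k ≤ l → ‖ι l (x l) - t l‖ ≤ T l ^ (-δ l) ∧ HeightLe (F l) (T l) (x l) ∧
                x l ∉ E l x) →
              Independent e τ c (fun l => ι l (x l)) k (ψ k) (T k ^ ψ k) := by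
  classical
  have hsub : ∀ k, ∃ e : Fin (3 * p k) → Y776.AxJ.Nj (p k) 0, Function.Injective e ∧
      ∀ t ∈ U k, Y124.LocInd (fun i => Y776.AxJ.yj (τ k) (fun k : Fin 0 => k.elim0) (e i)) t := by
    intro k
    obtain ⟨e, he, hL⟩ := Y776.AxJ.exists_loc (fmj (hU k)) (hU k).pos
    exact ⟨e, he, hL⟩
  choose e he hL using hsub
  have hinj : ∀ k, Function.Injective fun i : Fin (3 * p k) => nm (e k i) := fun k => nm_inj.comp (he k)
  refine ⟨fun k i => nm (e k i), hinj, fun k => exists_basic _ (hinj k), ?_⟩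
  intro L hLc hLU ψ hψ m δ hδ
  have hev : ∀ (k : ℕ) (i : Fin (3 * p k)), ∀ t ∈ U k,
      (fun z => value (τ k) z (nm (e k i))) =ᶠ[nhds t]
        Y776.AxJ.yj (τ k) (fun k : Fin 0 => k.elim0) (e k i) := by
    intro k i t ht
    filter_upwards [(hU k).isOpen.mem_nhds ht] with z hz
    exact value_eq (hU k) hz _
  obtain ⟨C, θ, hθ, H⟩ := seqF (κ := fun k => Fin (3 * p k)) (κ' := fun k => Name (p k))
    (fun k a z => value (τ k) z a) (fun k i => nm (e k i)) hinj L hLc
    (fun k i t ht => (Y776.AxJ.yj_an (fmj (hU k)) (e k i) t (hLU k ht)).congr (hev k i t (hLU k ht)).symm)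
    (fun k t ht => by
      intro P hP
      refine hL k t (hLU k ht) P ?_
      have hall : ∀ᶠ z in nhds t, ∀ i : Fin (3 * p k), value (τ k) z (nm (e k i)) =
          Y776.AxJ.yj (τ k) (fun k : Fin 0 => k.elim0) (e k i) z := by
        rw [Filter.eventually_all]
        exact fun i => hev k i t (hLU k ht)
      filter_upwards [hP, hall] with z hz hz'
      rw [← hz]
      congr 2
      funext o
      cases o with
      | none => rfl
      | some i => exact (hz' i).symm) ψ hψ m δ hδ
  refine ⟨C, θ, fun F _ _ hF ι T t c hT hTt => ?_⟩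
  obtain ⟨E, hE1, hE2, hE3⟩ := H F hF ι T t c hT hTt
  refine ⟨E, hE1, hE2, fun x k hx P hPd hPh hPc hPs h0 y hy1 hy2 => ?_⟩
  refine hE3 x k (fun l hl => ?_) P ⟨⟨fun s hs v => ?_, hPh⟩, hPc, hPs⟩ h0 y hy1 hy2
  · obtain ⟨h1, ⟨a, b, hb, hab, hxab⟩, h3⟩ := hx l hl
    have hT0 : 0 ≤ T l := by
      have := (hθ l).trans (hTt l).1
      linarith
    exact ⟨h1, ⟨a, b, hb, Y120.house_le (F l) hT0 fun φ => (hab φ).1, Y120.house_le (F l) hT0 fun φ => (hab φ).2, hxab⟩, h3⟩
  · exact (MvPolynomial.monomial_le_degreeOf v (MvPolynomial.mem_support_iff.2 hs)).trans (hPd v)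

end Pool.Agent.Results.MP_47914d_nt.InfiniteSequences
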