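import Pool.Agent.L5helper73.Inf.J

/-!
# The modular Schanuel conjecture for isogeny classes in bounded degree, in infinitely many windows

Let `j` be the modular invariant. For each `i = 0, 1, 2, …` we consider a window of `H_i + 1` consecutive integers with sign
`ε_i`, `n = ε_i (N_i + u)`, `0 ≤ u ≤ H_i`, where the `H_i` are arbitrary and `N_i ≥ τ_i`. For each pair `(i, u)` let
`z_(i,u)` be any point equivalent under `GL_2^+(ℚ)` to a point `v` with `j(v) = ε_i (N_i + u)`. If these points are no CM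
points and are pairwise not equivalent, the modular Schanuel conjecture predicts that all the `z_(i,u)` are algebraically
independent, because the numbers `j(z_(i,u))` are algebraic.

We prove: there are sets `S_i` of at most `Ψ_i + ∑_(l < i) (H_l + 1) + 2` exceptional numbers `u`, which do not depend on
the points `z_(i,u)`, such that all the other `z_(i,u)`, of all the windows together, are algebraically independent in
bounded degree: for each `k`, all relations of degree `≤ ψ(k)` over number fields of degree `≤ ψ(k)` (there is no bound for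
the heights) between arbitrarily many points of the windows `i ≥ k` are trivial, even relative to `2 π i`, the first `ψ(k)`
terms of a given sequence of complex numbers and all the points of the windows `i < k`, exceptional or not. Here `ψ` is any
function, and `Ψ_i = ψ(0) + … + ψ(i)`. In the starting hand-ins `IsogenyWindows`, `GrowingDegreeIsogenies` there is one
window, and `C` depends on the number `k` of points.
-/

set_option autoImplicit false

namespace Pool.Agent.Results.MP_47914d_nt.InfiniteWindows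

/-- the normalised Eisenstein series of weight `4` -/
noncomputable def E4 (τ : ℂ) : ℂ :=
  1 + 240 * ∑' m : ℕ, ((ArithmeticFunction.sigma 3 (m + 1) : ℕ) : ℂ) *
    Complex.exp (2 * (Real.pi : ℂ) * Complex.I * ((m : ℂ) + 1) * τ)

/-- the normalised Eisenstein series of weight `6` -/
noncomputable def E6 (τ : ℂ) : ℂ :=
  1 - 504 * ∑' m : ℕ, ((ArithmeticFunction.sigma 5 (m + 1) : ℕ) : ℂ) *
    Complex.exp (2 * (Real.pi : ℂ) * Complex.I * ((m : ℂ) + 1) * τ)

/-- the modular invariant `j = q⁻¹ + 744 + 196884 q + ⋯` -/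
noncomputable def J (τ : ℂ) : ℂ := 1728 * E4 τ ^ 3 / (E4 τ ^ 3 - E6 τ ^ 2)

/-- `z` is equivalent under `GL_2^+(ℚ)` to a point `v` of the upper half-plane with `j(v) = t`. -/
def Isogenous (t : ℤ) (z : ℂ) : Prop :=
  ∃ v : ℂ, 0 < v.im ∧ J v = t ∧ ∃ a b c d : ℚ, 0 < a * d - b * c ∧ z = ((a : ℂ) * v + b) / ((c : ℂ) * v + d)

/-- the known numbers: `2 π i`, the first `D` terms of the sequence `c`, all the points `z_(i,u)`, `0 ≤ u ≤ H_i`, of the
windows `i < k` -/
def known (c : ℕ → ℂ) (H : ℕ → ℕ) (z : ℕ × ℕ → ℂ) (D k : ℕ) : Set ℂ :=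
  {x | x = 2 * Real.pi * Complex.I ∨ (∃ i < D, x = c i) ∨ ∃ i < k, ∃ u, u ≤ H i ∧ x = z (i, u)}

/-- the numbers `z_x`, `x ∈ I`, are algebraically independent in degree `D` over the set `A` of numbers: each polynomial of
degree `≤ D` over a number field of degree `≤ D` in elements of `A` and the `z_x`, `x ∈ I`, which vanishes, vanishes for all
values of the variables which stand for the `z_x` -/
def Independent (A : Set ℂ) (I : Set (ℕ × ℕ)) (z : ℕ × ℕ → ℂ) (D : ℕ) : Prop :=
  ∀ (K : Type) [Field K] [NumberField K] (φ : K →+* ℂ) (P : MvPolynomial (A ⊕ I) K),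
    Module.finrank ℚ K ≤ D → P.totalDegree ≤ D →
    (P.map φ).eval (Sum.elim (fun x : A => (x : ℂ)) fun x : I => z x) = 0 →
    ∀ X : I → ℂ, (P.map φ).eval (Sum.elim (fun x : A => (x : ℂ)) X) = 0

open Pool.Agent.L5helper73.Inf

theorem J_eq : J = Pool.Agent.TH21.MS.jj := by
  have h4 : E4 = Pool.Agent.TH21.MS.E4 := funext Pool.Agent.Y120.J.E4_same
  have h6 : E6 = Pool.Agent.TH21.MS.E6 := funext Pool.Agent.Y120.J.E6_same
  funext τ
  unfold J Pool.Agent.TH21.MS.jj
  rw [h4, h6]

theorem IsoZ_of {t : ℤ} {z : ℂ} (h : Isogenous t z) : IsoZ t z := by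
  obtain ⟨v, hv, hJ, a, b, c, d, hdet, hz⟩ := h
  rw [J_eq] at hJ
  exact ⟨⟨v, hv⟩, hJ, a, b, c, d, hdet.ne', hz⟩

theorem sign {ε : ℤ} (hε : ε = 1 ∨ ε = -1) : ∃ s : Bool, Pool.Agent.Y120.J.si s = ε := by
  rcases hε with h | h
  · exact ⟨true, by rw [h]; rfl⟩
  · exact ⟨false, by rw [h]; rfl⟩

/-- Let `ψ` be any function and `H_i` any numbers. There are `τ_i` such that for all `N_i ≥ τ_i`, all signs `ε_i` and all
complex sequences `c` there are sets `S_i` of integers `0 ≤ u ≤ H_i`, where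
`|S_i| ≤ ψ(0) + … + ψ(i) + ∑_(l < i) (H_l + 1) + 2`, such that for all points `z_(i,u)`, `0 ≤ u ≤ H_i`, isogenous to points
with invariants `ε_i (N_i + u)`, all sets `I` (finite or infinite) of pairs `(i, u)`, `u ≤ H_i`, `u ∉ S_i`, and all `k` with
`k ≤ i` for all `(i, u) ∈ I`, the `z_x`, `x ∈ I`, are algebraically independent in degree `ψ(k)` over the set of the numbers
`2 π i`, `c_l`, `l < ψ(k)`, and `z_(i,u)`, `i < k`, `u ≤ H_i`. -/
theorem result (ψ H : ℕ → ℕ) : ∃ τ : ℕ → ℕ, ∀ N : ℕ → ℕ, (∀ i, τ i ≤ N i) →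
    ∀ ε : ℕ → ℤ, (∀ i, ε i = 1 ∨ ε i = -1) → ∀ c : ℕ → ℂ,
    ∃ S : ℕ → Finset ℕ, (∀ i, S i ⊆ Finset.range (H i + 1)) ∧
      (∀ i, (S i).card ≤ ∑ l ∈ Finset.range (i + 1), ψ l + ∑ l ∈ Finset.range i, (H l + 1) + 2) ∧
      ∀ z : ℕ × ℕ → ℂ, (∀ i u, u ≤ H i → Isogenous (ε i * (N i + u)) (z (i, u))) →
        ∀ I : Set (ℕ × ℕ), (∀ x ∈ I, x.2 ≤ H x.1 ∧ x.2 ∉ S x.1) →
          ∀ k, (∀ x ∈ I, k ≤ x.1) → Independent (known c H z (ψ k) k) I z (ψ k) := by
  obtain ⟨τ, hτ⟩ := mainJ ψ H
  refine ⟨τ, fun N hN ε hε c => ?_⟩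
  choose s hs using fun i => sign (hε i)
  obtain ⟨S, hS1, hS2, hmain⟩ := hτ N hN s c
  refine ⟨S, hS1, hS2, fun z hz I hI k hk => ?_⟩
  obtain ⟨δ, hδ, W, hW, hA⟩ := hmain (fun i u => z (i, u)) (fun i u hu => by
    rw [hs]
    have h1 := IsoZ_of (hz i u hu)
    push_cast
    exact h1)
  set io : I → Σ j : ℕ, {u // u ∈ Finset.range (H j + 1) \ S j} := fun x =>
    ⟨x.1.1, ⟨x.1.2, Finset.mem_sdiff.2 ⟨Finset.mem_range.2 (Nat.lt_succ_of_le (hI x x.2).1), (hI x x.2).2⟩⟩⟩ with hio
  have hinj : Function.Injective io := by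
    rintro ⟨⟨i, u⟩, hx⟩ ⟨⟨i', u'⟩, hx'⟩ h
    have h1 : i = i' := congrArg Sigma.fst h
    subst h1
    have h2 := eq_of_heq (Sigma.mk.inj h).2
    have h3 : u = u' := congrArg Subtype.val h2
    subst h3
    rfl
  intro K _ _ φ P hK hP h0 X
  have h1 := hA.relK (io := io) (k := k) (e := ψ k) (fun x => ⟨Set.mem_univ _, hk _ x.2⟩)
    (fun j _ hkj => hδ k j hkj) (κ := known c H z (ψ k) k) (hW k) K hK φ P hP (by
      rw [MvPolynomial.aeval_eq_eval]
      exact h0) (fun y => Function.extend io X 0 y) (fun j => Set.mem_univ _)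
  have h2 : (fun y => Function.extend io X 0 y) ∘ io = X := by
    funext x
    exact hinj.extend_apply X 0 x
  rw [h2, MvPolynomial.aeval_eq_eval] at h1
  exact h1

end Pool.Agent.Results.MP_47914d_nt.InfiniteWindows
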