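import Pool.Agent.L5helper52.JK.Win
import Pool.Agent.L5helper52.LL.Fac

/-!
# The modular Schanuel conjecture for isogeny classes over simultaneously Liouville fields

A subfield `F` of `ℂ` is simultaneously Liouville if any finitely many of its elements have simultaneous rational
approximations of every order; there is such a field which contains all the numbers `∑_{n ∈ A} 10 ^ (-n!)`, `A ⊆ ℕ`.

Let `j` be the modular invariant, `v_1, …, v_k` points of the upper half-plane for which the numbers `n_i = j(v_i)` are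
distinct integers, and `z_i = (a_i v_i + b_i) / (c_i v_i + d_i)` any points equivalent to them under `GL_2^+(ℚ)`. We prove:
for all `q`, `k`, `D`, `δ` there is a number `E` such that for all `N`, `H` with `(H + 2)^E ≤ N`, every simultaneously
Liouville field `F`, all complex numbers `w_1, …, w_q` and each sign `ε` there is a set `S` of **at most `q + 2`** integers
such that for all distinct integers `n_1, …, n_k` outside `S` with `N ≤ ε n_i ≤ N + H` and all points `z_i` equivalent to points
`v_i` with `j(v_i) = n_i` every relation of degree at most `δ` between `z_1, …, z_k`, with coefficients which are polynomials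
in `2 π i, w_1, …, w_q` over an extension of `F` of degree at most `D`, is trivial: the polynomial is zero after the
substitution of the numbers `2 π i, w_1, …, w_q`. Neither `E` nor the bound `q + 2` depends on `F`. For `F = ℚ` this is the
starting result `IsogenyWindows` of this problem.

Proof. The values of a `G`-system at `1/t` have a measure of linear independence of finite type
(`L5helper52/WK/GMeas.lean`), so they are linearly independent over all simultaneously Liouville fields; then the
constants `2 π i`, `w_l`, `log |n|` are eliminated by Hilbert functions over the base field `F`.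
-/

set_option autoImplicit false

namespace Pool.Agent.Results.MP_47914d_nt.LiouvilleIsogenies

/-- Any finitely many elements of `F` have simultaneous rational approximations of every order: for
every exponent `w` there are arbitrarily large `q` with `|q x - p| < q ^ (-w)` for every `x` in the finite
set, with an integer `p` which depends on `x`. -/
def SimLiouville (F : Subfield ℂ) : Prop :=
  ∀ s : Finset ℂ, (∀ x ∈ s, x ∈ F) → ∀ w q₀ : ℕ, ∃ q : ℕ, q₀ ≤ q ∧ 1 ≤ q ∧
    ∀ x ∈ s, ∃ p : ℤ, ‖(q : ℂ) * x - p‖ < 1 / (q : ℝ) ^ w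

/-- `∑_{n ∈ A} 10 ^ (-n!)` -/
noncomputable def liouvilleSum (A : Set ℕ) : ℝ :=
  ∑' n : ℕ, A.indicator (fun n => 1 / (10 : ℝ) ^ n.factorial) n

/-- the normalised Eisenstein series of weight `4` -/
noncomputable def E4 (τ : ℂ) : ℂ :=
  1 + 240 * ∑' m : ℕ, ((ArithmeticFunction.sigma 3 (m + 1) : ℕ) : ℂ) *
    Complex.exp (2 * (Real.pi : ℂ) * Complex.I * ((m : ℂ) + 1) * τ)

/-- the normalised Eisenstein series of weight `6` -/
noncomputable def E6 (τ : ℂ) : ℂ :=
  1 - 504 * ∑' m : ℕ, ((ArithmeticFunction.sigma 5 (m + 1) : ℕ) : ℂ) *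
    Complex.exp (2 * (Real.pi : ℂ) * Complex.I * ((m : ℂ) + 1) * τ)

/-- the modular invariant `j = q⁻¹ + 744 + 196884 q + ⋯` -/
noncomputable def J (τ : ℂ) : ℂ := 1728 * E4 τ ^ 3 / (E4 τ ^ 3 - E6 τ ^ 2)

/-- `z` is equivalent under `GL_2^+(ℚ)` to a point `v` of the upper half-plane with `j(v) = t`. -/
def Isogenous (t : ℤ) (z : ℂ) : Prop :=
  ∃ v : ℂ, 0 < v.im ∧ J v = t ∧ ∃ a b c d : ℚ, 0 < a * d - b * c ∧ z = ((a : ℂ) * v + b) / ((c : ℂ) * v + d)

/-- The numbers `2 π i, w_1, …, w_q`. -/
noncomputable def constants {q : ℕ} (w : Fin q → ℂ) : Option (Fin q) → ℂ := fun o => o.elim (2 * Real.pi * Complex.I) w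

/-- The numbers `2 π i, w_1, …, w_q` and `k` variables. -/
noncomputable def generic {q k : ℕ} (w : Fin q → ℂ) : Option (Fin q) ⊕ Fin k → MvPolynomial (Fin k) ℂ :=
  Sum.elim (fun o => MvPolynomial.C (constants w o)) MvPolynomial.X

lemma J_eq : J = Pool.Agent.TH21.MS.jj := by
  have h4 : E4 = Pool.Agent.TH21.MS.E4 := funext Pool.Agent.Y120.J.E4_same
  have h6 : E6 = Pool.Agent.TH21.MS.E6 := funext Pool.Agent.Y120.J.E6_same
  funext τ
  unfold J Pool.Agent.TH21.MS.jj
  rw [h4, h6]

lemma constants_eq {q : ℕ} (w : Fin q → ℂ) : constants w = Pool.Agent.Y120.K.wo w := by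
  funext o
  rcases o with _ | o <;> rfl

lemma sign {ε : ℤ} (hε : ε = 1 ∨ ε = -1) : ∃ s : Bool, Pool.Agent.Y120.J.si s = ε := by
  rcases hε with h | h
  · exact ⟨true, by rw [h]; rfl⟩
  · exact ⟨false, by rw [h]; rfl⟩

/-- (1) Some simultaneously Liouville field contains all the numbers `∑_{n ∈ A} 10 ^ (-n!)`. (2) For all `q`, `k`, `D`, `δ`
there is `E` such that for all `N`, `H` with `(H + 2)^E ≤ N`, every simultaneously Liouville field `F`, all `w_1, …, w_q` and
`ε = ±1` there is a set `S` of at most `q + 2` integers such that for all distinct integers `n_1, …, n_k` outside `S` with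
`N ≤ ε n_i ≤ N + H` and all `z_i` isogenous to points with invariants `n_i` every polynomial `P` of degree at most `δ` over an
extension `K` of `F` of degree at most `D` which vanishes at `2 π i, w_1, …, w_q, z_1, …, z_k` is zero after the substitution
of `2 π i, w_1, …, w_q`. -/
theorem result :
    (∃ F : Subfield ℂ, SimLiouville F ∧ ∀ A : Set ℕ, ((liouvilleSum A : ℝ) : ℂ) ∈ F) ∧
    ∀ q k D δ : ℕ, ∃ E : ℕ, ∀ N H : ℕ, (H + 2) ^ E ≤ N →
    ∀ F : Subfield ℂ, SimLiouville F → ∀ (w : Fin q → ℂ) (ε : ℤ), ε = 1 ∨ ε = -1 →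
    ∃ S : Finset ℤ, S.card ≤ q + 2 ∧ ∀ n : Fin k → ℤ, Function.Injective n →
      (∀ i, (N : ℤ) ≤ ε * n i ∧ ε * n i ≤ N + H ∧ n i ∉ S) →
      ∀ z : Fin k → ℂ, (∀ i, Isogenous (n i) (z i)) →
      ∀ K : IntermediateField F ℂ, FiniteDimensional F K → Module.finrank F K ≤ D →
      ∀ P : MvPolynomial (Option (Fin q) ⊕ Fin k) K, P.totalDegree ≤ δ →
        MvPolynomial.aeval (Sum.elim (constants w) z) P = 0 → MvPolynomial.aeval (generic (k := k) w) P = 0 := by
  refine ⟨Pool.Agent.L5helper52.LL.exists_SL, fun q k D δ => ?_⟩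
  obtain ⟨E, hE⟩ := Pool.Agent.L5helper52.JK.winSL q k D δ
  refine ⟨E, fun N H hN F hF w ε hε => ?_⟩
  obtain ⟨s, hs⟩ := sign hε
  obtain ⟨S, hSc, hS⟩ := hE N H hN F hF w s
  refine ⟨S, hSc, fun n hn1 hnS z hz K hK hKD P hP hP0 => ?_⟩
  choose v hv hvn a b c d hdet hzv using hz
  rw [hs] at hS
  rw [constants_eq] at hP0
  have h1 := hS n hn1 hnS (fun i => ⟨v i, hv i⟩) (fun i => by
    have h1 := hvn i
    rw [J_eq] at h1
    exact h1) z (fun i => ⟨a i, b i, c i, d i, (hdet i).ne', hzv i⟩) K hK hKD P hP hP0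
  have h2 : MvPolynomial.aeval (generic (k := k) w) P = Pool.Agent.L5helper52.JK.fr w P := by
    unfold generic Pool.Agent.L5helper52.JK.fr
    rw [constants_eq]
  rw [h2]
  apply MvPolynomial.funext
  intro u
  rw [map_zero, Pool.Agent.L5helper52.JK.fr_eval]
  exact h1 u

end Pool.Agent.Results.MP_47914d_nt.LiouvilleIsogenies
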