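import Pool.Agent.L5helper37.MS.Bridge

/-!
# The modular Schanuel conjecture is a statement about the single equation `j(a) + j(b) = c`

Let `j` be the modular invariant. An equation `∑ l(p) j(p) + ∑ m(p) p = ν` between the numbers `j(p)`, `p` (finitely many
points `p` of the upper half-plane, algebraic coefficients) has a differential: if the points move in their
`GL₂⁺(ℚ)`-orbits and the numbers `p`, `j(p)` are moved independently, a deformation is given by two vector fields `u`, `v`
on the upper half-plane with `u(g p) = g'(p) u(p)`, `v(g p) = g'(p) v(p)` for all `g ∈ GL₂⁺(ℚ)` (`u(p)` is the derivative of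
`p`, `j'(p) v(p)` the derivative of the number `j(p)`), and the differential of the equation is
`∑ l(p) j'(p) v(p) + ∑ m(p) u(p)`. On `n` orbits without complex multiplication the deformations form a space of
dimension `2 n`.

The modular Schanuel conjecture says that the transcendence degree of `ℚ(z_1, …, z_n, j(z_1), …, j(z_n))` is at least `n`.
We prove that it is equivalent to the statement that among the true equations of the **single shape**
`j(a) + j(b) = c`, where `a`, `b`, `c` are CM points or points of `n` given orbits, any `n + 1` have linearly dependent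
differentials, and also to the same statement for all linear equations with algebraic coefficients. More generally the
conjecture with the lower bound `n - d` is equivalent to the dependence of any `n + d + 1` equations.

Proof. If the transcendence degree is small, there are many polynomials which vanish at `(z, j(z))` with independent
gradients. They are evaluated step by step, every intermediate number being the value of `j` at a new point, which
costs one equation for each new orbit. Multiplication is eliminated by the Hecke operator `T_2`: the sum of `j` over the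
points `2 τ`, `τ / 2`, `(τ + 1) / 2` is a quadratic polynomial in `j(τ)`, so that squares are linear expressions in the
values of `j` at isogenous points. An addition `x + y = z` becomes `x + (y + N i) = z + N i`, where `N i` is a CM point and
`y + N i`, `z + N i` are in the upper half-plane. Conversely, derivations of `ℂ` give deformations, since `j(g p)` is a
root of a polynomial with coefficients in `ℚ(j(p))`, which is simple after differentiation of the modular polynomial.
All facts about `j` (surjectivity, injectivity modulo `SL₂(ℤ)`, `T_2`, the modular equation) are proved.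
-/

set_option autoImplicit false

namespace Pool.Agent.Results.MP_47914d_nt.UniversalEquation

open UpperHalfPlane

/-- Klein's modular invariant, by the formula of the frozen statement -/
noncomputable def J (τ : ℂ) : ℂ :=
  1728 * (60 * ∑' p : ℤ × ℤ, 1 / ((p.1 : ℂ) * τ + (p.2 : ℂ)) ^ 4) ^ 3 /
    ((60 * ∑' p : ℤ × ℤ, 1 / ((p.1 : ℂ) * τ + (p.2 : ℂ)) ^ 4) ^ 3 -
      27 * (140 * ∑' p : ℤ × ℤ, 1 / ((p.1 : ℂ) * τ + (p.2 : ℂ)) ^ 6) ^ 2)

/-- CM points -/
def IsCM (p : ℂ) : Prop :=
  ∃ a b c : ℤ, (a ≠ 0 ∨ b ≠ 0 ∨ c ≠ 0) ∧ (a : ℂ) * p ^ 2 + (b : ℂ) * p + (c : ℂ) = 0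

/-- `q = g p` for a rational matrix `g` of positive determinant -/
def Isogenous (p q : ℂ) : Prop :=
  ∃ a b c d : ℚ, 0 < a * d - b * c ∧ q * ((c : ℂ) * p + (d : ℂ)) = (a : ℂ) * p + (b : ℂ)

/-- the modular Schanuel conjecture up to the defect `d`: for points `z_1, …, z_n` without complex multiplication in
different orbits, `n - d` of the numbers `z_i`, `j(z_i)` are algebraically independent. For `d = 0` this is Q1. -/
def Schanuel (d : ℕ) : Prop :=
  ∀ (n : ℕ) (z : Fin n → ℂ), (∀ i, 0 < (z i).im) → (∀ i, ¬ IsCM (z i)) →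
    (∀ i k, i ≠ k → ¬ Isogenous (z i) (z k)) →
    ∃ w : Fin (n - d) → ℂ, (∀ m, w m ∈ Set.range z ∪ Set.range (fun i => J (z i))) ∧
      AlgebraicIndependent ℚ w

/-- the functions `u` on the upper half-plane with `u (g p) = g' (p) u (p)` for all rational matrices `g` of positive
determinant -/
def VectorField (u : ℍ → ℂ) : Prop :=
  ∀ (a b c d : ℚ) (p q : ℍ), 0 < a * d - b * c →
    (q : ℂ) * ((c : ℂ) * p + (d : ℂ)) = (a : ℂ) * p + (b : ℂ) →
    u q = ((a : ℂ) * d - b * c) / ((c : ℂ) * p + d) ^ 2 * u p

/-- the left-hand sides `∑ e.1 p * j p + ∑ e.2 p * p` of linear equations between the numbers `j p` and `p` -/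
abbrev Equation : Type := (ℍ →₀ ℂ) × (ℍ →₀ ℂ)

/-- the value of the left-hand side -/
noncomputable def value (e : Equation) : ℂ :=
  e.1.sum (fun p c => c * J p) + e.2.sum fun p c => c * (p : ℂ)

/-- the differential, at two vector fields `u` (the derivatives of the points `p`) and `v` (the derivatives of the numbers
`j p`, divided by `j' p`) -/
noncomputable def differential (e : Equation) (u v : ℍ → ℂ) : ℂ :=
  e.1.sum (fun p c => c * (deriv J p * v p)) + e.2.sum fun p c => c * u p

/-- the true equations with algebraic coefficients -/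
def Linear : Set Equation :=
  {e | (∀ p, IsAlgebraic ℚ (e.1 p) ∧ IsAlgebraic ℚ (e.2 p)) ∧ IsAlgebraic ℚ (value e)}

/-- the true equations `j a + j b = c` -/
def Single : Set Equation :=
  {e | ∃ a b c : ℍ, J a + J b = (c : ℂ) ∧
    e = (Finsupp.single a 1 + Finsupp.single b 1, -Finsupp.single c 1)}

/-- any `n + d + 1` equations from `S` between the numbers `p`, `j p`, where `p` is a CM point or in the orbit of one of `n`
points `z_i`, have linearly dependent differentials -/
def Bounded (d : ℕ) (S : Set Equation) : Prop :=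
  ∀ (n : ℕ) (z : Fin n → ℍ) (e : Fin (n + d + 1) → Equation), (∀ k, e k ∈ S) →
    (∀ k p, ((e k).1 p ≠ 0 ∨ (e k).2 p ≠ 0) → IsCM p ∨ ∃ i, Isogenous (z i) p) →
    ∃ c : Fin (n + d + 1) → ℂ, c ≠ 0 ∧
      ∀ u v, VectorField u → VectorField v → ∑ k, c k * differential (e k) u v = 0

open L5helper37.MS in
theorem schanuel_iff (d : ℕ) : Schanuel d ↔ MSC d := by
  have hJ : ∀ p : ℍ, J p = H294ZP.jj p := JJ_eq
  constructor
  · intro h n z hcm horb
    obtain ⟨w, hw1, hw2⟩ := h n (fun i => (z i : ℂ)) (fun i => (z i).im_pos)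
      (fun i hi => hcm i ((cm_iff (z i)).1 hi))
      (fun i k hik hor => horb i k hik ((isog_iff (z i) (z k)).1 hor))
    refine ⟨w, fun m => ?_, hw2⟩
    rcases hw1 m with ⟨i, hi⟩ | ⟨i, hi⟩
    · exact Or.inl ⟨i, hi⟩
    · exact Or.inr ⟨i, by rw [← hi]; exact (hJ (z i)).symm⟩
  · intro h n z him hcm horb
    obtain ⟨w, hw1, hw2⟩ := h n (fun i => ⟨z i, him i⟩)
      (fun i hi => hcm i ((cm_iff ⟨z i, him i⟩).2 hi))
      (fun i k hik hor => horb i k hik ((isog_iff ⟨z i, him i⟩ ⟨z k, him k⟩).2 hor))
    refine ⟨w, fun m => ?_, hw2⟩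
    rcases hw1 m with ⟨i, hi⟩ | ⟨i, hi⟩
    · exact Or.inl ⟨i, hi⟩
    · exact Or.inr ⟨i, by rw [← hi]; exact hJ ⟨z i, him i⟩⟩

open L5helper37.MS in
theorem bounded_iff (d : ℕ) (S : Set Equation) : Bounded d S ↔ NoExcess d S := by
  have hpt : ∀ (n : ℕ) (z : Fin n → ℍ) (p : ℍ),
      (IsCM p ∨ ∃ i, Isogenous (z i) p) ↔ p ∈ Pts (Set.range z) := by
    intro n z p
    refine or_congr (cm_iff p) ⟨?_, ?_⟩
    · rintro ⟨i, hi⟩
      exact ⟨z i, ⟨i, rfl⟩, (isog_iff (z i) p).1 hi⟩
    · rintro ⟨_, ⟨i, rfl⟩, hi⟩
      exact ⟨i, (isog_iff (z i) p).2 hi⟩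
  have hd : ∀ (e : Equation) (u v : ℍ → ℂ), differential e u v = dif e u v := by
    intro e u v
    have h1 : ∀ p : ℍ, deriv J (p : ℂ) = N135.ZO.dd H294ZP.jj p := deriv_JJ
    unfold differential dif
    simp only [h1]
  have hu : ∀ u : ℍ → ℂ, VectorField u ↔ Eqv u := fld_iff
  unfold Bounded NoExcess
  simp only [hpt, hd, hu]

/-- the cases `d = 0`: the frozen statement -/
theorem schanuel_zero : Schanuel 0 ↔ ∀ J : ℂ → ℂ,
    (∀ τ : ℂ, 0 < τ.im →
      J τ = 1728 * (60 * ∑' p : ℤ × ℤ, 1 / ((p.1 : ℂ) * τ + (p.2 : ℂ)) ^ 4) ^ 3 /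
        ((60 * ∑' p : ℤ × ℤ, 1 / ((p.1 : ℂ) * τ + (p.2 : ℂ)) ^ 4) ^ 3 -
          27 * (140 * ∑' p : ℤ × ℤ, 1 / ((p.1 : ℂ) * τ + (p.2 : ℂ)) ^ 6) ^ 2)) →
    ∀ (n : ℕ) (z : Fin n → ℂ),
      (∀ i, 0 < (z i).im) →
      (∀ i, ¬ ∃ a b c : ℤ, (a ≠ 0 ∨ b ≠ 0 ∨ c ≠ 0) ∧
          (a : ℂ) * z i ^ 2 + (b : ℂ) * z i + (c : ℂ) = 0) →
      (∀ i k, i ≠ k → ¬ ∃ a b c d : ℚ, 0 < a * d - b * c ∧
          z k * ((c : ℂ) * z i + (d : ℂ)) = (a : ℂ) * z i + (b : ℂ)) →
      ∃ w : Fin n → ℂ,
        (∀ m, w m ∈ Set.range z ∪ Set.range (fun i => J (z i))) ∧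
        AlgebraicIndependent ℚ w := by
  constructor
  · intro h J' hJ' n z him hcm horb
    obtain ⟨w, hw1, hw2⟩ := h n z him hcm horb
    refine ⟨w, fun m => ?_, hw2⟩
    rcases hw1 m with hi | ⟨i, hi⟩
    · exact Or.inl hi
    · exact Or.inr ⟨i, by rw [← hi]; exact hJ' (z i) (him i)⟩
  · intro h n z him hcm horb
    exact h J (fun τ _ => rfl) n z him hcm horb

/-- The modular Schanuel conjecture up to the defect `d` holds if and only if any `n + d + 1` true equations of the shape
`j a + j b = c` between numbers from `n` isogeny classes are dependent, and if and only if this holds for all linear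
equations with algebraic coefficients. -/
theorem result (d : ℕ) : List.TFAE [Schanuel d, Bounded d Linear, Bounded d Single] := by
  have hJ : ∀ p : ℍ, J p = H294ZP.jj p := L5helper37.MS.JJ_eq
  have hv : ∀ e : Equation, value e = L5helper37.MS.val e := by
    intro e
    unfold value L5helper37.MS.val
    simp only [hJ]
  have hL : Linear = L5helper37.MS.Lin := by
    unfold Linear L5helper37.MS.Lin
    simp only [hv]
  have hS : Single = L5helper37.MS.Sng := by
    unfold Single L5helper37.MS.Sng L5helper37.MS.gC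
    simp only [hJ]
  rw [schanuel_iff, bounded_iff, bounded_iff, hL, hS]
  have h1 := L5helper37.MS.msc_iff_lin d
  have h2 := L5helper37.MS.msc_iff_sng d
  tfae_have 1 ↔ 2 := h1
  tfae_have 1 ↔ 3 := h2
  tfae_finish

end Pool.Agent.Results.MP_47914d_nt.UniversalEquation
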